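import Mathlib

set_option autoImplicit false

/-! # Jets of rational maps of the disc into balls: the algebra in one variable -/

namespace Pool.Agent.K6.H12.JET

open Polynomial Complex

/-- the reversed conjugate polynomial -/
noncomputable def star' (d : ℕ) (A : ℂ[X]) : ℂ[X] := reflect d (A.map (starRingEnd ℂ))

theorem eval_star' {d : ℕ} {A : ℂ[X]} (hA : A.natDegree ≤ d) {t : ℂ} (ht : ‖t‖ = 1) :
    (star' d A).eval t = t ^ d * (starRingEnd ℂ) (A.eval t) := by
  have ht0 : t ≠ 0 := by
    rintro rfl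
    simp at ht
  have h1 : (starRingEnd ℂ) t = t⁻¹ := by
    rw [Complex.inv_def, Complex.normSq_eq_norm_sq, ht]
    simp
  have h2 : (A.map (starRingEnd ℂ)).natDegree ≤ d := (natDegree_map_le).trans hA
  have hs : (starRingEnd ℂ) t ≠ 0 := by
    rw [h1]; exact inv_ne_zero ht0
  let _ : Invertible ((starRingEnd ℂ) t) := invertibleOfNonzero hs
  have h3 := eval₂_reflect_mul_pow (RingHom.id ℂ) ((starRingEnd ℂ) t) d (A.map (starRingEnd ℂ)) h2
  have h4 : ⅟((starRingEnd ℂ) t) = t := by
    rw [invOf_eq_inv, h1, inv_inv]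
  rw [h4] at h3
  have h5 : eval₂ (RingHom.id ℂ) ((starRingEnd ℂ) t) (A.map (starRingEnd ℂ)) =
      (starRingEnd ℂ) (A.eval t) := by
    rw [eval₂_id, eval_map, eval₂_at_apply]
  rw [h5] at h3
  have h6 : eval₂ (RingHom.id ℂ) t (reflect d (A.map (starRingEnd ℂ))) = (star' d A).eval t := by
    rw [eval₂_id]; rfl
  rw [h6, h1] at h3
  rw [← h3, mul_comm (t ^ d), mul_assoc, ← mul_pow, inv_mul_cancel₀ ht0, one_pow, mul_one]

theorem natDegree_star' {d : ℕ} (A : ℂ[X]) (hA : A.natDegree ≤ d) :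
    (star' d A).natDegree ≤ d := by
  rw [natDegree_le_iff_coeff_eq_zero]
  intro m hm
  unfold star'
  rw [coeff_reflect]
  have : revAt d m = m := revAt_eq_self_of_lt hm
  rw [this, coeff_map, coeff_eq_zero_of_natDegree_lt (by omega), map_zero]

/-- polynomials which agree on the unit circle are equal -/
theorem eq_of_circle {A B : ℂ[X]} (h : ∀ t : ℂ, ‖t‖ = 1 → A.eval t = B.eval t) : A = B := by
  apply Polynomial.eq_of_infinite_eval_eq
  have h1 : (Metric.sphere (0 : ℂ) 1).Infinite := by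
    have : (Set.range fun n : ℕ => Complex.exp ((n : ℝ) * I)) ⊆ Metric.sphere (0 : ℂ) 1 := by
      rintro _ ⟨n, rfl⟩
      simp only [mem_sphere_iff_norm, sub_zero]
      exact Complex.norm_exp_ofReal_mul_I n
    refine Set.Infinite.mono this ?_
    apply Set.infinite_range_of_injective
    intro m n hmn
    simp only at hmn
    rw [Complex.exp_eq_exp_iff_exists_int] at hmn
    obtain ⟨k, hk⟩ := hmn
    have h2 : ((m : ℝ) : ℂ) = ((n : ℝ) : ℂ) + k * (2 * Real.pi) := by
      have h3 : (((m : ℝ) : ℂ) - (((n : ℝ) : ℂ) + k * (2 * Real.pi))) * I = 0 := by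
        rw [sub_mul, hk]; ring
      rcases mul_eq_zero.mp h3 with h4 | h4
      · exact sub_eq_zero.mp h4
      · exact absurd h4 I_ne_zero
    have h3 : (m : ℝ) = n + k * (2 * Real.pi) := by exact_mod_cast h2
    by_cases hk0 : k = 0
    · rw [hk0] at h3
      simp at h3
      exact_mod_cast h3
    · exfalso
      apply irrational_pi
      refine ⟨((m : ℚ) - n) / (2 * k), ?_⟩
      have hk1 : (k : ℝ) ≠ 0 := by exact_mod_cast hk0
      push_cast
      field_simp
      linarith
  refine h1.mono ?_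
  intro t ht
  rw [mem_sphere_zero_iff_norm] at ht
  exact h t ht

/-- The one-variable theorem. -/
theorem one_var {N : ℕ} {d d' k : ℕ} {P P' : Fin N → ℂ[X]} {Q Q' : ℂ[X]}
    (hP : ∀ j, (P j).natDegree ≤ d) (hQ : Q.natDegree ≤ d)
    (hP' : ∀ j, (P' j).natDegree ≤ d') (hQ' : Q'.natDegree ≤ d')
    (hs : ∀ t : ℂ, ‖t‖ = 1 → ∑ j, ‖(P j).eval t‖ ^ 2 = ‖Q.eval t‖ ^ 2)
    (hs' : ∀ t : ℂ, ‖t‖ = 1 → ∑ j, ‖(P' j).eval t‖ ^ 2 = ‖Q'.eval t‖ ^ 2)
    (h0 : Q.eval 0 ≠ 0) (h0' : Q'.eval 0 ≠ 0)
    (hj : ∀ j, X ^ (k + 1) ∣ P j * Q' - P' j * Q) (hk : d + d' < 2 * k + 2) :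
    ∀ j, P j * Q' = P' j * Q := by
  -- conjugate versions of the sphere identities
  have cs : ∀ t : ℂ, ‖t‖ = 1 →
      ∑ j, (P j).eval t * (starRingEnd ℂ) ((P j).eval t) = Q.eval t * (starRingEnd ℂ) (Q.eval t) := by
    intro t ht
    have h1 := hs t ht
    have h2 : ((∑ j, ‖(P j).eval t‖ ^ 2 : ℝ) : ℂ) = ((‖Q.eval t‖ ^ 2 : ℝ) : ℂ) := by rw [h1]
    push_cast at h2
    simp only [Complex.mul_conj']
    exact h2
  have cs' : ∀ t : ℂ, ‖t‖ = 1 →
      ∑ j, (P' j).eval t * (starRingEnd ℂ) ((P' j).eval t) =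
        Q'.eval t * (starRingEnd ℂ) (Q'.eval t) := by
    intro t ht
    have h1 := hs' t ht
    have h2 : ((∑ j, ‖(P' j).eval t‖ ^ 2 : ℝ) : ℂ) = ((‖Q'.eval t‖ ^ 2 : ℝ) : ℂ) := by rw [h1]
    push_cast at h2
    simp only [Complex.mul_conj']
    exact h2
  -- polynomial identities
  have e1 : ∑ j, P' j * star' d' (P' j) = Q' * star' d' Q' := by
    apply eq_of_circle
    intro t ht
    simp only [eval_finsetSum, eval_mul]
    rw [eval_star' hQ' ht]
    have : ∀ j, (P' j).eval t * (star' d' (P' j)).eval t =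
        t ^ d' * ((P' j).eval t * (starRingEnd ℂ) ((P' j).eval t)) := by
      intro j
      rw [eval_star' (hP' j) ht]; ring
    simp only [this]
    rw [← Finset.mul_sum, cs' t ht]; ring
  have e2 : ∑ j, P j * star' d (P j) = Q * star' d Q := by
    apply eq_of_circle
    intro t ht
    simp only [eval_finsetSum, eval_mul]
    rw [eval_star' hQ ht]
    have : ∀ j, (P j).eval t * (star' d (P j)).eval t =
        t ^ d * ((P j).eval t * (starRingEnd ℂ) ((P j).eval t)) := by
      intro j
      rw [eval_star' (hP j) ht]; ring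
    simp only [this]
    rw [← Finset.mul_sum, cs t ht]; ring
  obtain ⟨S, hS⟩ : ∃ S : ℂ[X], S = ∑ j, P j * star' d' (P' j) - Q * star' d' Q' := ⟨_, rfl⟩
  obtain ⟨T, hT⟩ : ∃ T : ℂ[X], T = ∑ j, P' j * star' d (P j) - Q' * star' d Q := ⟨_, rfl⟩
  have hSdeg : S.natDegree ≤ d + d' := by
    rw [hS]
    refine (natDegree_sub_le _ _).trans (max_le ?_ ?_)
    · apply natDegree_sum_le_of_forall_le
      intro j _
      exact (natDegree_mul_le).trans (Nat.add_le_add (hP j) (natDegree_star' _ (hP' j)))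
    · exact (natDegree_mul_le).trans (Nat.add_le_add hQ (natDegree_star' _ hQ'))
  have hTS : T = star' (d + d') S := by
    apply eq_of_circle
    intro t ht
    rw [eval_star' hSdeg ht, hT, hS]
    have ht1 : t * (starRingEnd ℂ) t = 1 := by
      rw [Complex.mul_conj']
      rw [ht]; norm_num
    have ht2 : t ^ (d + d') * ((starRingEnd ℂ) t) ^ d' = t ^ d := by
      rw [pow_add, mul_assoc, ← mul_pow, ht1, one_pow, mul_one]
    simp only [eval_sub, eval_finsetSum, eval_mul, map_sub, map_sum, map_mul]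
    rw [eval_star' hQ ht, eval_star' hQ' ht]
    simp only [map_mul, map_pow, Complex.conj_conj]
    rw [mul_sub, Finset.mul_sum]
    congr 1
    · apply Finset.sum_congr rfl
      intro j _
      rw [eval_star' (hP j) ht, eval_star' (hP' j) ht]
      simp only [map_mul, map_pow, Complex.conj_conj]
      rw [← ht2]; ring
    · rw [← ht2]; ring
  have hXQ' : ¬ (X : ℂ[X]) ∣ Q' := by
    rw [X_dvd_iff, coeff_zero_eq_eval_zero]; exact h0'
  have hXQ : ¬ (X : ℂ[X]) ∣ Q := by
    rw [X_dvd_iff, coeff_zero_eq_eval_zero]; exact h0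
  have hXS : X ^ (k + 1) ∣ S := by
    have h1 : X ^ (k + 1) ∣ Q' * S := by
      have h2 : Q' * S = ∑ j, (P j * Q' - P' j * Q) * star' d' (P' j) := by
        rw [hS, mul_sub, Finset.mul_sum]
        have h3 : Q' * (Q * star' d' Q') = Q * ∑ j, P' j * star' d' (P' j) := by
          rw [e1]; ring
        rw [h3, Finset.mul_sum, ← Finset.sum_sub_distrib]
        apply Finset.sum_congr rfl
        intro j _
        ring
      rw [h2]
      exact Finset.dvd_sum fun j _ => (hj j).mul_right _
    exact Polynomial.prime_X.pow_dvd_of_dvd_mul_left _ hXQ' h1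
  have hXT : X ^ (k + 1) ∣ T := by
    have h1 : X ^ (k + 1) ∣ Q * T := by
      have h2 : Q * T = ∑ j, (P' j * Q - P j * Q') * star' d (P j) := by
        rw [hT, mul_sub, Finset.mul_sum]
        have h3 : Q * (Q' * star' d Q) = Q' * ∑ j, P j * star' d (P j) := by
          rw [e2]; ring
        rw [h3, Finset.mul_sum, ← Finset.sum_sub_distrib]
        apply Finset.sum_congr rfl
        intro j _
        ring
      rw [h2]
      refine Finset.dvd_sum fun j _ => Dvd.dvd.mul_right ?_ _
      rw [← neg_sub]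
      exact (dvd_neg).mpr (hj j)
    exact Polynomial.prime_X.pow_dvd_of_dvd_mul_left _ hXQ h1
  have hS0 : S = 0 := by
    ext i
    rw [coeff_zero]
    by_contra hi
    have hi1 : i ≤ d + d' := by
      by_contra hcon
      exact hi (coeff_eq_zero_of_natDegree_lt (by omega))
    have hi2 : k + 1 ≤ i := by
      by_contra hcon
      exact hi ((X_pow_dvd_iff.mp hXS) i (by omega))
    have hi3 : k + 1 ≤ d + d' - i := by
      by_contra hcon
      have h1 := (X_pow_dvd_iff.mp hXT) (d + d' - i) (by omega)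
      rw [hTS] at h1
      unfold star' at h1
      rw [coeff_reflect, coeff_map, revAt_le (by omega : d + d' - i ≤ d + d'),
        show d + d' - (d + d' - i) = i by omega] at h1
      exact hi (by simpa using h1)
    omega
  intro j
  apply eq_of_circle
  intro t ht
  have hSt : ∑ j, (P j).eval t * (starRingEnd ℂ) ((P' j).eval t) =
      Q.eval t * (starRingEnd ℂ) (Q'.eval t) := by
    have h1 : S.eval t = 0 := by rw [hS0, eval_zero]
    rw [hS] at h1
    simp only [eval_sub, eval_finsetSum, eval_mul] at h1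
    rw [eval_star' hQ' ht] at h1
    have h2 : ∀ j, (P j).eval t * (star' d' (P' j)).eval t =
        t ^ d' * ((P j).eval t * (starRingEnd ℂ) ((P' j).eval t)) := by
      intro j
      rw [eval_star' (hP' j) ht]; ring
    simp only [h2] at h1
    rw [← Finset.mul_sum] at h1
    have ht0 : t ≠ 0 := by
      rintro rfl
      simp at ht
    have h3 : t ^ d' * (∑ j, (P j).eval t * (starRingEnd ℂ) ((P' j).eval t) -
        Q.eval t * (starRingEnd ℂ) (Q'.eval t)) = 0 := by
      rw [mul_sub, ← h1]; ring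
    rcases mul_eq_zero.mp h3 with h4 | h4
    · exact absurd h4 (pow_ne_zero _ ht0)
    · exact sub_eq_zero.mp h4
  have hSt' : ∑ j, (P' j).eval t * (starRingEnd ℂ) ((P j).eval t) =
      Q'.eval t * (starRingEnd ℂ) (Q.eval t) := by
    have h1 := congrArg (starRingEnd ℂ) hSt
    simp only [map_sum, map_mul, Complex.conj_conj] at h1
    rw [mul_comm (Q'.eval t), ← h1]
    exact Finset.sum_congr rfl fun j _ => mul_comm _ _
  have key : ∑ j, ‖(P j).eval t * Q'.eval t - (P' j).eval t * Q.eval t‖ ^ 2 = 0 := by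
    have h1 : ((∑ j, ‖(P j).eval t * Q'.eval t - (P' j).eval t * Q.eval t‖ ^ 2 : ℝ) : ℂ) = 0 := by
      push_cast
      simp only [← Complex.mul_conj', map_sub, map_mul]
      have h2 : ∀ j, ((P j).eval t * Q'.eval t - (P' j).eval t * Q.eval t) *
          ((starRingEnd ℂ) ((P j).eval t) * (starRingEnd ℂ) (Q'.eval t) -
            (starRingEnd ℂ) ((P' j).eval t) * (starRingEnd ℂ) (Q.eval t)) =
          (Q'.eval t * (starRingEnd ℂ) (Q'.eval t)) *
            ((P j).eval t * (starRingEnd ℂ) ((P j).eval t)) +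
          (Q.eval t * (starRingEnd ℂ) (Q.eval t)) *
            ((P' j).eval t * (starRingEnd ℂ) ((P' j).eval t)) -
          (Q'.eval t * (starRingEnd ℂ) (Q.eval t)) *
            ((P j).eval t * (starRingEnd ℂ) ((P' j).eval t)) -
          (Q.eval t * (starRingEnd ℂ) (Q'.eval t)) *
            ((P' j).eval t * (starRingEnd ℂ) ((P j).eval t)) := by
        intro j; ring
      simp only [h2, Finset.sum_sub_distrib, Finset.sum_add_distrib, ← Finset.mul_sum]
      rw [cs t ht, cs' t ht, hSt, hSt']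
      ring
    exact_mod_cast h1
  have h3 := (Finset.sum_eq_zero_iff_of_nonneg (fun j _ => by positivity)).mp key j
    (Finset.mem_univ j)
  have h4 : (P j).eval t * Q'.eval t - (P' j).eval t * Q.eval t = 0 := by
    have := pow_eq_zero_iff (two_ne_zero) |>.mp h3
    exact norm_eq_zero.mp this
  rw [eval_mul, eval_mul]
  exact sub_eq_zero.mp h4

end Pool.Agent.K6.H12.JET
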