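import Mathlib
import Pool.Agent.K6.H12.JET.OneVar

set_option autoImplicit false

/-! # Jets of proper rational maps between balls: the upper bound -/

namespace Pool.Agent.K6.H12.JET

open Metric Set Filter Topology

/-- complex Euclidean space -/
abbrev E (n : ℕ) := EuclideanSpace ℂ (Fin n)

/-- the value of a polynomial at a point of complex Euclidean space -/
noncomputable def ev {n : ℕ} (z : E n) (p : MvPolynomial (Fin n) ℂ) : ℂ :=
  MvPolynomial.eval (fun i => z i) p

/-- `f` is a proper rational map from the unit ball of `ℂⁿ` to the unit ball of `ℂᴺ`: its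
components are quotients of polynomials (with denominators without zeros in the ball), and the
preimages of compact subsets of the ball are compact. -/
structure ProperRational (n N : ℕ) (f : E n → E N) : Prop where
  maps : MapsTo f (ball 0 1) (ball 0 1)
  proper : ∀ K ⊆ ball (0 : E N) 1, IsCompact K → IsCompact (ball (0 : E n) 1 ∩ f ⁻¹' K)
  rational : ∀ j, ∃ a b : MvPolynomial (Fin n) ℂ,
    ∀ z ∈ ball (0 : E n) 1, ev z b ≠ 0 ∧ f z j = ev z a / ev z b

/-- `f = p / q` on the unit ball with polynomials `p_j`, `q` of degree at most `d`, where `q` has no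
zeros in the ball. -/
def DegreeLE {n N : ℕ} (d : ℕ) (f : E n → E N) : Prop :=
  ∃ (p : Fin N → MvPolynomial (Fin n) ℂ) (q : MvPolynomial (Fin n) ℂ),
    (∀ j, (p j).totalDegree ≤ d) ∧ q.totalDegree ≤ d ∧
    ∀ z ∈ ball (0 : E n) 1, ev z q ≠ 0 ∧ ∀ j, f z j = ev z (p j) / ev z q

/-- `f` and `g` have the same `k`-jet at the origin -/
def SameJet {n N : ℕ} (k : ℕ) (f g : E n → E N) : Prop :=
  ∀ m ≤ k, iteratedFDeriv ℂ m f 0 = iteratedFDeriv ℂ m g 0

/-- all proper rational maps are determined by their `k`-jets at the origin -/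
def Determined (n N k : ℕ) : Prop :=
  ∀ f g : E n → E N, ProperRational n N f → ProperRational n N g → SameJet k f g →
    ∀ z ∈ ball (0 : E n) 1, f z = g z

theorem continuous_ev {n : ℕ} (p : MvPolynomial (Fin n) ℂ) : Continuous fun z : E n => ev z p := by
  unfold ev
  exact (MvPolynomial.continuous_eval p).comp (continuous_pi fun i => by fun_prop)

/-- analyticity of polynomials -/
theorem analytic_ev {n : ℕ} (p : MvPolynomial (Fin n) ℂ) (z : E n) :
    AnalyticAt ℂ (fun z : E n => ev z p) z := by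
  induction p using MvPolynomial.induction_on with
  | C a => simpa [ev] using analyticAt_const
  | add p q hp hq =>
    have : (fun z : E n => ev z (p + q)) = fun z => ev z p + ev z q := by
      funext z; simp [ev]
    rw [this]; exact hp.add hq
  | mul_X p i hp =>
    have : (fun z : E n => ev z (p * MvPolynomial.X i)) = fun z => ev z p * z i := by
      funext z; simp [ev]
    rw [this]
    refine hp.mul ?_
    exact (EuclideanSpace.proj (𝕜 := ℂ) i : E n →L[ℂ] ℂ).analyticAt z

/-- restriction of a polynomial to the line `t ↦ t a` -/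
noncomputable def lineP {n : ℕ} (a : E n) (p : MvPolynomial (Fin n) ℂ) : Polynomial ℂ :=
  MvPolynomial.aeval (fun i => Polynomial.C (a i) * Polynomial.X) p

theorem eval_lineP {n : ℕ} (a : E n) (p : MvPolynomial (Fin n) ℂ) (t : ℂ) :
    (lineP a p).eval t = ev (t • a) p := by
  induction p using MvPolynomial.induction_on with
  | C c => simp [ev, lineP]
  | add p q hp hq =>
    simp only [lineP, ev, map_add, Polynomial.eval_add] at hp hq ⊢
    rw [hp, hq]
  | mul_X p i hp =>
    simp only [lineP, ev, map_mul, Polynomial.eval_mul, MvPolynomial.aeval_X,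
      MvPolynomial.eval_X, Polynomial.eval_C, Polynomial.eval_X] at hp ⊢
    rw [hp]
    simp [mul_comm]

theorem natDegree_lineP {n : ℕ} (a : E n) (p : MvPolynomial (Fin n) ℂ) :
    (lineP a p).natDegree ≤ p.totalDegree := by
  unfold lineP
  rw [MvPolynomial.aeval_def, MvPolynomial.eval₂_eq]
  apply Polynomial.natDegree_sum_le_of_forall_le
  intro s hs
  refine (Polynomial.natDegree_mul_le).trans ?_
  have h1 : ((algebraMap ℂ (Polynomial ℂ)) (p.coeff s)).natDegree = 0 :=
    Polynomial.natDegree_C _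
  rw [h1, zero_add]
  refine (Polynomial.natDegree_prod_le _ _).trans ?_
  have h2 : ∀ i ∈ s.support, ((Polynomial.C (a i) * Polynomial.X) ^ s i).natDegree ≤ s i := by
    intro i _
    refine (Polynomial.natDegree_pow_le).trans ?_
    have h3 : (Polynomial.C (a i) * Polynomial.X).natDegree ≤ 1 :=
      (Polynomial.natDegree_C_mul_le _ _).trans Polynomial.natDegree_X_le
    calc s i * (Polynomial.C (a i) * Polynomial.X).natDegree ≤ s i * 1 := Nat.mul_le_mul_left _ h3
      _ = s i := mul_one _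
  refine (Finset.sum_le_sum h2).trans ?_
  exact MvPolynomial.le_totalDegree hs

theorem norm_sq_eq {N : ℕ} (x : E N) : ‖x‖ ^ 2 = ∑ j, ‖x j‖ ^ 2 := by
  rw [EuclideanSpace.norm_eq, Real.sq_sqrt (Finset.sum_nonneg fun i _ => by positivity)]

/-- the identity on the sphere -/
theorem sphere_id {n N : ℕ} {f : E n → E N} (hf : ProperRational n N f)
    {p : Fin N → MvPolynomial (Fin n) ℂ} {q : MvPolynomial (Fin n) ℂ}
    (hpq : ∀ z ∈ ball (0 : E n) 1, ev z q ≠ 0 ∧ ∀ j, f z j = ev z (p j) / ev z q)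
    {a : E n} (ha : ‖a‖ = 1) : ∑ j, ‖ev a (p j)‖ ^ 2 = ‖ev a q‖ ^ 2 := by
  have hball : ∀ r : ℝ, 0 < r → r < 1 → ((r : ℂ) • a) ∈ ball (0 : E n) 1 := by
    intro r h0 h1
    rw [mem_ball_zero_iff, norm_smul, ha, mul_one, Complex.norm_real, Real.norm_eq_abs,
      abs_of_pos h0]
    exact h1
  -- the norm tends to one
  have hlim : Tendsto (fun r : ℝ => ‖f ((r : ℂ) • a)‖ ^ 2) (𝓝[<] 1) (𝓝 1) := by
    have hlim1 : Tendsto (fun r : ℝ => ‖f ((r : ℂ) • a)‖) (𝓝[<] 1) (𝓝 1) := by
      rw [tendsto_order]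
      constructor
      · intro ρ hρ
        have hK : closedBall (0 : E N) ρ ⊆ ball 0 1 := closedBall_subset_ball hρ
        have hc := hf.proper _ hK (isCompact_closedBall _ _)
        obtain ⟨R, hR1, hR⟩ : ∃ R < (1 : ℝ), ∀ w ∈ ball (0 : E n) 1 ∩ f ⁻¹' closedBall 0 ρ,
            ‖w‖ ≤ R := by
          rcases (ball (0 : E n) 1 ∩ f ⁻¹' closedBall 0 ρ).eq_empty_or_nonempty with he | hne
          · exact ⟨0, one_pos, by rw [he]; simp⟩
          · obtain ⟨w, hw, hmax⟩ := hc.exists_isMaxOn hne (continuous_norm.continuousOn)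
            exact ⟨‖w‖, by simpa using hw.1, fun v hv => hmax hv⟩
        have h1 : ∀ᶠ r : ℝ in 𝓝[<] 1, max R 0 < r ∧ r < 1 := by
          have h2 : Ioo (max R 0) 1 ∈ 𝓝[<] (1 : ℝ) := Ioo_mem_nhdsLT (max_lt hR1 one_pos)
          filter_upwards [h2] with r hr using ⟨hr.1, hr.2⟩
        filter_upwards [h1] with r hr
        by_contra hcon
        rw [not_lt] at hcon
        have hr0 : 0 < r := (le_max_right _ _).trans_lt hr.1
        have h3 := hR ((r : ℂ) • a) ⟨hball r hr0 hr.2, by
          rw [mem_preimage, mem_closedBall_zero_iff]; exact hcon⟩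
        rw [norm_smul, ha, mul_one, Complex.norm_real, Real.norm_eq_abs, abs_of_pos hr0] at h3
        exact absurd ((le_max_left R 0).trans_lt hr.1) (not_lt.mpr h3)
      · intro ρ hρ
        have h1 : ∀ᶠ r : ℝ in 𝓝[<] 1, 0 < r ∧ r < 1 := by
          have h2 : Ioo (0 : ℝ) 1 ∈ 𝓝[<] (1 : ℝ) := Ioo_mem_nhdsLT one_pos
          filter_upwards [h2] with r hr using ⟨hr.1, hr.2⟩
        filter_upwards [h1] with r hr
        have h3 := hf.maps (hball r hr.1 hr.2)
        rw [mem_ball_zero_iff] at h3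
        exact h3.trans hρ
    have := hlim1.pow 2
    simpa using this
  have hcont : Continuous fun r : ℝ => (r : ℂ) • a := by fun_prop
  have hq : Tendsto (fun r : ℝ => ‖ev ((r : ℂ) • a) q‖ ^ 2) (𝓝[<] 1) (𝓝 (‖ev a q‖ ^ 2)) := by
    have h1 : Continuous fun r : ℝ => ‖ev ((r : ℂ) • a) q‖ ^ 2 :=
      (((continuous_ev q).comp hcont).norm).pow 2
    have h2 := h1.tendsto 1
    simp only [Complex.ofReal_one, one_smul] at h2
    exact h2.mono_left nhdsWithin_le_nhds
  have hp : Tendsto (fun r : ℝ => ∑ j, ‖ev ((r : ℂ) • a) (p j)‖ ^ 2) (𝓝[<] 1)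
      (𝓝 (∑ j, ‖ev a (p j)‖ ^ 2)) := by
    have h1 : Continuous fun r : ℝ => ∑ j, ‖ev ((r : ℂ) • a) (p j)‖ ^ 2 :=
      continuous_finsetSum _ fun j _ => (((continuous_ev (p j)).comp hcont).norm).pow 2
    have h2 := h1.tendsto 1
    simp only [Complex.ofReal_one, one_smul] at h2
    exact h2.mono_left nhdsWithin_le_nhds
  have heq : ∀ᶠ r : ℝ in 𝓝[<] 1, ‖f ((r : ℂ) • a)‖ ^ 2 * ‖ev ((r : ℂ) • a) q‖ ^ 2 =
      ∑ j, ‖ev ((r : ℂ) • a) (p j)‖ ^ 2 := by
    have h2 : Ioo (0 : ℝ) 1 ∈ 𝓝[<] (1 : ℝ) := Ioo_mem_nhdsLT one_pos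
    filter_upwards [h2] with r hr
    obtain ⟨h3, h4⟩ := hpq _ (hball r hr.1 hr.2)
    rw [norm_sq_eq, Finset.sum_mul]
    apply Finset.sum_congr rfl
    intro j _
    rw [h4 j, norm_div, div_pow, div_mul_cancel₀]
    exact pow_ne_zero _ (norm_ne_zero_iff.mpr h3)
  have h5 := (hlim.mul hq).congr' heq
  have h6 := tendsto_nhds_unique hp h5
  rw [one_mul] at h6
  exact h6

/-- the restriction of a jet to a line -/
theorem jet_line {n N : ℕ} {k : ℕ} {f g : E n → E N} (hfa : AnalyticOnNhd ℂ f (ball 0 1))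
    (hga : AnalyticOnNhd ℂ g (ball 0 1)) (h : SameJet k f g) (a : E n) (j : Fin N) :
    ∀ m < k + 1, iteratedDeriv m (fun t : ℂ => f (t • a) j - g (t • a) j) 0 = 0 := by
  intro m hm
  let L : ℂ →L[ℂ] E n := (ContinuousLinearMap.id ℂ ℂ).smulRight a
  have hL : ∀ t, L t = t • a := fun t => by simp [L]
  obtain ⟨F, hF⟩ : ∃ F : E n → ℂ, F = fun z => f z j - g z j := ⟨_, rfl⟩
  have hFeq : F = fun z => (EuclideanSpace.proj (𝕜 := ℂ) j : E N →L[ℂ] ℂ) (f z - g z) := by
    rw [hF]; funext z; simp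
  have hcf : ContDiffOn ℂ ⊤ f (ball 0 1) := hfa.contDiffOn isOpen_ball.uniqueDiffOn
  have hcg : ContDiffOn ℂ ⊤ g (ball 0 1) := hga.contDiffOn isOpen_ball.uniqueDiffOn
  have hcF : ContDiffOn ℂ ⊤ F (ball 0 1) := by
    rw [hFeq]
    exact (ContinuousLinearMap.contDiff _).comp_contDiffOn (hcf.sub hcg)
  have h0 : (0 : E n) ∈ ball (0 : E n) 1 := mem_ball_self one_pos
  have hopen : IsOpen (L ⁻¹' ball (0 : E n) 1) := isOpen_ball.preimage L.continuous
  have hL0 : L 0 ∈ ball (0 : E n) 1 := by rw [map_zero]; exact h0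
  -- the iterated derivative of F vanishes
  have hF0 : iteratedFDeriv ℂ m F 0 = 0 := by
    have h1 : iteratedFDerivWithin ℂ m F (ball 0 1) 0 = 0 := by
      rw [hFeq]
      have h2 := (EuclideanSpace.proj (𝕜 := ℂ) j : E N →L[ℂ] ℂ).iteratedFDerivWithin_comp_left
        (f := fun z => f z - g z) ((hcf.sub hcg) 0 h0) isOpen_ball.uniqueDiffOn h0
        (i := m) (by exact_mod_cast le_top)
      have h3 : iteratedFDerivWithin ℂ m (fun z => f z - g z) (ball 0 1) 0 = 0 := by
        have h4 := iteratedFDerivWithin_sub_apply (𝕜 := ℂ) (i := m) (f := f) (g := g)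
          (s := ball (0 : E n) 1) (x := 0)
          ((hcf 0 h0).of_le (by exact_mod_cast le_top)) ((hcg 0 h0).of_le (by exact_mod_cast le_top))
          isOpen_ball.uniqueDiffOn h0
        have h5 : (fun z => f z - g z) = f - g := rfl
        rw [h5, h4, iteratedFDerivWithin_of_isOpen m isOpen_ball h0,
          iteratedFDerivWithin_of_isOpen m isOpen_ball h0, h m (by omega), sub_self]
      have h6 : (fun z => (EuclideanSpace.proj (𝕜 := ℂ) j : E N →L[ℂ] ℂ) (f z - g z)) =
          (EuclideanSpace.proj (𝕜 := ℂ) j : E N →L[ℂ] ℂ) ∘ fun z => f z - g z := rfl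
      rw [h6, h2, h3]
      ext v
      simp
    rwa [iteratedFDerivWithin_of_isOpen m isOpen_ball h0] at h1
  have h1 := L.iteratedFDerivWithin_comp_right hcF isOpen_ball.uniqueDiffOn hopen.uniqueDiffOn
    (x := 0) hL0 (i := m) (by exact_mod_cast le_top)
  rw [iteratedFDerivWithin_of_isOpen m hopen hL0, map_zero,
    iteratedFDerivWithin_of_isOpen m isOpen_ball h0, hF0] at h1
  have h2 : (fun t : ℂ => f (t • a) j - g (t • a) j) = F ∘ L := by
    funext t
    rw [hF]
    simp only [Function.comp_apply, hL]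
  rw [h2, iteratedDeriv_eq_iteratedFDeriv, h1]
  simp

theorem analytic_of_rational {n N : ℕ} {f : E n → E N} {p : Fin N → MvPolynomial (Fin n) ℂ}
    {q : MvPolynomial (Fin n) ℂ}
    (hpq : ∀ z ∈ ball (0 : E n) 1, ev z q ≠ 0 ∧ ∀ j, f z j = ev z (p j) / ev z q) :
    AnalyticOnNhd ℂ f (ball 0 1) := by
  intro z hz
  have h1 : AnalyticAt ℂ (fun w : E n => (WithLp.toLp 2 fun j => ev w (p j) / ev w q : E N)) z := by
    have h2 : AnalyticAt ℂ (fun w : E n => fun j => ev w (p j) / ev w q) z := by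
      rw [analyticAt_pi_iff]
      intro j
      exact (analytic_ev (p j) z).div (analytic_ev q z) (hpq z hz).1
    exact ((PiLp.continuousLinearEquiv 2 ℂ (fun _ : Fin N => ℂ)).symm.toContinuousLinearMap.analyticAt _).comp h2
  refine h1.congr ?_
  filter_upwards [isOpen_ball.mem_nhds hz] with w hw
  ext j
  exact ((hpq w hw).2 j).symm

/-- **Jets and degrees.** -/
theorem eq_of_sameJet {n N d d' k : ℕ} {f g : E n → E N} (hf : ProperRational n N f)
    (hg : ProperRational n N g) (hd : DegreeLE d f) (hd' : DegreeLE d' g) (hj : SameJet k f g)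
    (hk : d + d' < 2 * k + 2) : ∀ z ∈ ball (0 : E n) 1, f z = g z := by
  obtain ⟨p, q, hp, hq, hpq⟩ := hd
  obtain ⟨p', q', hp', hq', hpq'⟩ := hd'
  have hfa := analytic_of_rational hpq
  have hga := analytic_of_rational hpq'
  have h0 : (0 : E n) ∈ ball (0 : E n) 1 := mem_ball_self one_pos
  have key : ∀ a : E n, ‖a‖ = 1 → ∀ j, lineP a (p j) * lineP a q' = lineP a (p' j) * lineP a q := by
    intro a ha
    refine one_var (d := d) (d' := d') (k := k) (fun j => (natDegree_lineP a _).trans (hp j))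
      ((natDegree_lineP a _).trans hq) (fun j => (natDegree_lineP a _).trans (hp' j))
      ((natDegree_lineP a _).trans hq') ?_ ?_ ?_ ?_ ?_ hk
    · intro t ht
      simp only [eval_lineP]
      exact sphere_id hf hpq (by rw [norm_smul, ht, ha, one_mul])
    · intro t ht
      simp only [eval_lineP]
      exact sphere_id hg hpq' (by rw [norm_smul, ht, ha, one_mul])
    · rw [eval_lineP, zero_smul]; exact (hpq 0 h0).1
    · rw [eval_lineP, zero_smul]; exact (hpq' 0 h0).1
    · intro j
      obtain ⟨A, hA⟩ : ∃ A : Polynomial ℂ, A = lineP a (p j) * lineP a q' - lineP a (p' j) * lineP a q :=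
        ⟨_, rfl⟩
      rw [← hA]
      have hφ : AnalyticAt ℂ (fun t : ℂ => f (t • a) j - g (t • a) j) 0 := by
        have hlin : AnalyticAt ℂ (fun t : ℂ => t • a) 0 := by
          exact (((ContinuousLinearMap.id ℂ ℂ).smulRight a).analyticAt 0)
        have h1 : AnalyticAt ℂ (fun t : ℂ => f (t • a)) 0 := by
          refine AnalyticAt.comp (g := f) ?_ hlin
          rw [zero_smul]; exact hfa 0 h0
        have h2 : AnalyticAt ℂ (fun t : ℂ => g (t • a)) 0 := by
          refine AnalyticAt.comp (g := g) ?_ hlin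
          rw [zero_smul]; exact hga 0 h0
        have h3 : AnalyticAt ℂ (fun t : ℂ => (EuclideanSpace.proj (𝕜 := ℂ) j : E N →L[ℂ] ℂ)
            (f (t • a) - g (t • a))) 0 :=
          ((EuclideanSpace.proj (𝕜 := ℂ) j : E N →L[ℂ] ℂ).analyticAt _).comp (h1.sub h2)
        refine h3.congr (Eventually.of_forall fun t => ?_)
        simp
      have hord : ((k + 1 : ℕ) : ℕ∞) ≤ analyticOrderAt (fun t : ℂ => f (t • a) j - g (t • a) j) 0 := by
        rw [natCast_le_analyticOrderAt_iff_iteratedDeriv_eq_zero hφ]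
        exact jet_line hfa hga hj a j
      rw [natCast_le_analyticOrderAt hφ] at hord
      obtain ⟨ψ, hψ, hψe⟩ := hord
      by_contra hdvd
      have hA0 : A ≠ 0 := by
        rintro h
        exact hdvd (by rw [h]; exact dvd_zero _)
      obtain ⟨R, hR1, hR2⟩ := Polynomial.exists_eq_pow_rootMultiplicity_mul_and_not_dvd A hA0 0
      rw [Polynomial.C_0, sub_zero] at hR1 hR2
      obtain ⟨l, hl⟩ : ∃ l, l = Polynomial.rootMultiplicity 0 A := ⟨_, rfl⟩
      rw [← hl] at hR1
      have hlk : l < k + 1 := by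
        by_contra hcon
        apply hdvd
        rw [hR1]
        exact (pow_dvd_pow _ (by omega)).mul_right _
      have hR0 : R.eval 0 ≠ 0 := by
        intro h
        apply hR2
        rw [Polynomial.X_dvd_iff, Polynomial.coeff_zero_eq_eval_zero]
        exact h
      -- R(t) = t^(k+1-l) ψ q q' near zero
      have hev : ∀ᶠ t : ℂ in 𝓝[≠] 0, R.eval t = t ^ (k + 1 - l) * (ψ t * (ev (t • a) q * ev (t • a) q')) := by
        have h1 : ∀ᶠ t : ℂ in 𝓝[≠] 0, t • a ∈ ball (0 : E n) 1 := by
          have hc : Continuous fun t : ℂ => t • a := by fun_prop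
          have h2 : ∀ᶠ t : ℂ in 𝓝 0, t • a ∈ ball (0 : E n) 1 := by
            apply hc.continuousAt.eventually_mem
            rw [zero_smul]
            exact isOpen_ball.mem_nhds h0
          exact h2.filter_mono nhdsWithin_le_nhds
        filter_upwards [h1, hψe.filter_mono nhdsWithin_le_nhds, self_mem_nhdsWithin]
          with t ht1 ht2 ht3
        have ht0 : t ≠ 0 := ht3
        obtain ⟨hq1, hf1⟩ := hpq _ ht1
        obtain ⟨hq2, hf2⟩ := hpq' _ ht1
        have h4 : A.eval t = (f (t • a) j - g (t • a) j) * (ev (t • a) q * ev (t • a) q') := by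
          rw [hA, Polynomial.eval_sub, Polynomial.eval_mul, Polynomial.eval_mul, eval_lineP,
            eval_lineP, eval_lineP, eval_lineP, hf1 j, hf2 j]
          field_simp
        rw [ht2, sub_zero, smul_eq_mul, hR1, Polynomial.eval_mul, Polynomial.eval_pow,
          Polynomial.eval_X] at h4
        have h5 : t ^ (k + 1) = t ^ l * t ^ (k + 1 - l) := by
          rw [← pow_add]; congr 1; omega
        rw [h5] at h4
        have h6 : t ^ l * R.eval t =
            t ^ l * (t ^ (k + 1 - l) * (ψ t * (ev (t • a) q * ev (t • a) q'))) := by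
          rw [h4]; ring
        exact mul_left_cancel₀ (pow_ne_zero _ ht0) h6
      have hlim1 : Tendsto (fun t : ℂ => R.eval t) (𝓝[≠] 0) (𝓝 (R.eval 0)) :=
        (R.continuous.tendsto 0).mono_left nhdsWithin_le_nhds
      have hlim2 : Tendsto (fun t : ℂ => t ^ (k + 1 - l) * (ψ t * (ev (t • a) q * ev (t • a) q')))
          (𝓝[≠] 0) (𝓝 0) := by
        have hc : Continuous fun t : ℂ => t • a := by fun_prop
        have hc1 : ContinuousAt (fun t : ℂ => t ^ (k + 1 - l) *
            (ψ t * (ev (t • a) q * ev (t • a) q'))) 0 := by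
          refine (continuousAt_id.pow _).mul (hψ.continuousAt.mul ?_)
          exact (((continuous_ev q).comp hc).mul ((continuous_ev q').comp hc)).continuousAt
        have h7 := hc1.tendsto
        simp only [id_eq] at h7
        rw [zero_pow (by omega), zero_mul] at h7
        exact h7.mono_left nhdsWithin_le_nhds
      have h8 := tendsto_nhds_unique hlim1 (hlim2.congr' (hev.mono fun t ht => ht.symm))
      exact hR0 h8
  -- conclusion
  intro z hz
  rcases eq_or_ne z 0 with rfl | hz0
  · have h1 := hj 0 (Nat.zero_le _)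
    have h2 := congrArg (fun φ => φ (fun _ => (0 : E n))) h1
    simpa using h2
  · have hzn : ‖z‖ ≠ 0 := norm_ne_zero_iff.mpr hz0
    obtain ⟨a, ha⟩ : ∃ a : E n, a = ((‖z‖ : ℂ)⁻¹) • z := ⟨_, rfl⟩
    have ha1 : ‖a‖ = 1 := by
      rw [ha, norm_smul, norm_inv, Complex.norm_real, norm_norm, inv_mul_cancel₀ hzn]
    have hza : z = (‖z‖ : ℂ) • a := by
      rw [ha, smul_smul, mul_inv_cancel₀ (by exact_mod_cast hzn), one_smul]
    ext j
    have h1 := congrArg (Polynomial.eval (‖z‖ : ℂ)) (key a ha1 j)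
    rw [Polynomial.eval_mul, Polynomial.eval_mul, eval_lineP, eval_lineP, eval_lineP, eval_lineP,
      ← hza] at h1
    obtain ⟨hq1, hf1⟩ := hpq z hz
    obtain ⟨hq2, hf2⟩ := hpq' z hz
    rw [hf1 j, hf2 j, div_eq_div_iff hq1 hq2]
    exact h1

end Pool.Agent.K6.H12.JET
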