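import Mathlib
import Pool.Agent.K6.H12.JET.Balls

set_option autoImplicit false

/-! # Monomial proper maps between balls: the lower bound -/

namespace Pool.Agent.K6.H12.JET

open Metric Set Filter Topology

/-- the data of a monomial map: `∑ c_j x^{α_j} = 1` on the simplex -/
structure Data (n : ℕ) (ι : Type) [Fintype ι] (c : ι → ℝ) (α : ι → Fin n → ℕ) : Prop where
  nonneg : ∀ j, 0 ≤ c j
  pos : ∀ j, 1 ≤ ∑ i, α j i
  sum : ∀ x : Fin n → ℝ, (∀ i, 0 ≤ x i) → ∑ i, x i = 1 → ∑ j, c j * ∏ i, x i ^ α j i = 1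

/-- the monomial map -/
noncomputable def mono {n N : ℕ} (ε : Fin N → ℂ) (c : Fin N → ℝ) (α : Fin N → Fin n → ℕ) :
    E n → E N := fun z => WithLp.toLp 2 fun j => ε j * (Real.sqrt (c j) : ℂ) * ∏ i, z i ^ α j i

theorem mono_apply {n N : ℕ} (ε : Fin N → ℂ) (c : Fin N → ℝ) (α : Fin N → Fin n → ℕ) (z : E n)
    (j : Fin N) : mono ε c α z j = ε j * (Real.sqrt (c j) : ℂ) * ∏ i, z i ^ α j i := rfl

theorem norm_mono {n N : ℕ} {ε : Fin N → ℂ} (hε : ∀ j, ‖ε j‖ = 1) {c : Fin N → ℝ}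
    (hc : ∀ j, 0 ≤ c j) (α : Fin N → Fin n → ℕ) (z : E n) :
    ‖mono ε c α z‖ ^ 2 = ∑ j, c j * ∏ i, (‖z i‖ ^ 2) ^ α j i := by
  rw [norm_sq_eq]
  apply Finset.sum_congr rfl
  intro j _
  rw [mono_apply, norm_mul, norm_mul, hε j, one_mul, Complex.norm_real, Real.norm_eq_abs,
    abs_of_nonneg (Real.sqrt_nonneg _), norm_prod, mul_pow, Real.sq_sqrt (hc j), ← Finset.prod_pow]
  congr 1
  apply Finset.prod_congr rfl
  intro i _
  rw [norm_pow, ← pow_mul, ← pow_mul, mul_comm]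

theorem scale {n : ℕ} (β : Fin n → ℕ) (x : Fin n → ℝ) (s : ℝ) :
    ∏ i, (s * x i) ^ β i = s ^ (∑ i, β i) * ∏ i, x i ^ β i := by
  simp only [mul_pow, Finset.prod_mul_distrib, Finset.prod_pow_eq_pow_sum]

/-- the two bounds -/
theorem bounds {n N : ℕ} {ε : Fin N → ℂ} (hε : ∀ j, ‖ε j‖ = 1) {c : Fin N → ℝ}
    {α : Fin N → Fin n → ℕ} (h : Data n (Fin N) c α) {D : ℕ} (hD : ∀ j, ∑ i, α j i ≤ D) {z : E n}
    (hz : ‖z‖ ≤ 1) : ‖mono ε c α z‖ ^ 2 ≤ ‖z‖ ^ 2 ∧ (‖z‖ ^ 2) ^ D ≤ ‖mono ε c α z‖ ^ 2 ∨ z = 0 := by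
  rcases eq_or_ne z 0 with h0 | h0
  · exact Or.inr h0
  left
  have hz0 : 0 < ‖z‖ := norm_pos_iff.mpr h0
  obtain ⟨s, hs⟩ : ∃ s, s = ‖z‖ ^ 2 := ⟨_, rfl⟩
  have hs0 : 0 < s := by rw [hs]; positivity
  have hs1 : s ≤ 1 := by rw [hs]; exact pow_le_one₀ hz0.le hz
  rw [norm_mono hε h.nonneg, ← hs]
  have hx : ∀ i, ‖z i‖ ^ 2 = s * (‖z i‖ ^ 2 / s) := fun i => by field_simp
  have hterm : ∀ j, c j * ∏ i, (‖z i‖ ^ 2) ^ α j i =
      s ^ (∑ i, α j i) * (c j * ∏ i, (‖z i‖ ^ 2 / s) ^ α j i) := by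
    intro j
    have : ∏ i, (‖z i‖ ^ 2) ^ α j i = ∏ i, (s * (‖z i‖ ^ 2 / s)) ^ α j i :=
      Finset.prod_congr rfl fun i _ => by rw [← hx i]
    rw [this, scale]; ring
  have hsum : ∑ j, c j * ∏ i, (‖z i‖ ^ 2 / s) ^ α j i = 1 := by
    apply h.sum
    · intro i; positivity
    · rw [← Finset.sum_div, ← norm_sq_eq, ← hs, div_self hs0.ne']
  have hnn : ∀ j, 0 ≤ c j * ∏ i, (‖z i‖ ^ 2 / s) ^ α j i := fun j =>
    mul_nonneg (h.nonneg j) (Finset.prod_nonneg fun i _ => by positivity)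
  simp only [hterm]
  constructor
  · calc ∑ j, s ^ (∑ i, α j i) * (c j * ∏ i, (‖z i‖ ^ 2 / s) ^ α j i)
        ≤ ∑ j, s * (c j * ∏ i, (‖z i‖ ^ 2 / s) ^ α j i) := by
          apply Finset.sum_le_sum
          intro j _
          apply mul_le_mul_of_nonneg_right _ (hnn j)
          calc s ^ (∑ i, α j i) ≤ s ^ 1 := pow_le_pow_of_le_one hs0.le hs1 (h.pos j)
            _ = s := pow_one s
      _ = s := by rw [← Finset.mul_sum, hsum, mul_one]
  · calc s ^ D = ∑ j, s ^ D * (c j * ∏ i, (‖z i‖ ^ 2 / s) ^ α j i) := by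
          rw [← Finset.mul_sum, hsum, mul_one]
      _ ≤ _ := by
          apply Finset.sum_le_sum
          intro j _
          apply mul_le_mul_of_nonneg_right _ (hnn j)
          exact pow_le_pow_of_le_one hs0.le hs1 (hD j)

theorem mono_zero {n N : ℕ} {ε : Fin N → ℂ} {c : Fin N → ℝ}
    {α : Fin N → Fin n → ℕ} (h : Data n (Fin N) c α) : mono ε c α 0 = 0 := by
  ext j
  rw [mono_apply]
  have : ∏ i, ((0 : E n) i) ^ α j i = 0 := by
    have h1 := h.pos j
    obtain ⟨i, hi⟩ : ∃ i, α j i ≠ 0 := by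
      by_contra hcon
      push Not at hcon
      simp [hcon] at h1
    apply Finset.prod_eq_zero (Finset.mem_univ i)
    simp [hi]
  rw [this]
  simp

/-- the polynomial of a component -/
noncomputable def pol {n N : ℕ} (ε : Fin N → ℂ) (c : Fin N → ℝ) (α : Fin N → Fin n → ℕ)
    (j : Fin N) : MvPolynomial (Fin n) ℂ :=
  MvPolynomial.C (ε j * (Real.sqrt (c j) : ℂ)) * ∏ i, MvPolynomial.X i ^ α j i

theorem ev_pol {n N : ℕ} (ε : Fin N → ℂ) (c : Fin N → ℝ) (α : Fin N → Fin n → ℕ)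
    (j : Fin N) (z : E n) : ev z (pol ε c α j) = mono ε c α z j := by
  rw [mono_apply]
  simp [ev, pol]

theorem continuous_mono {n N : ℕ} (ε : Fin N → ℂ) (c : Fin N → ℝ) (α : Fin N → Fin n → ℕ) :
    Continuous (mono ε c α) := by
  unfold mono
  apply (PiLp.continuous_toLp 2 _).comp
  apply continuous_pi
  intro j
  apply Continuous.mul continuous_const
  apply continuous_finsetProd
  intro i _
  exact Continuous.pow (by fun_prop) _

/-- monomial maps are proper -/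
theorem proper_mono {n N : ℕ} {ε : Fin N → ℂ} (hε : ∀ j, ‖ε j‖ = 1) {c : Fin N → ℝ}
    {α : Fin N → Fin n → ℕ} (h : Data n (Fin N) c α) : ProperRational n N (mono ε c α) := by
  obtain ⟨D, hD1, hD⟩ : ∃ D, 1 ≤ D ∧ ∀ j, ∑ i, α j i ≤ D := by
    refine ⟨1 + ∑ j, ∑ i, α j i, by omega, fun j => ?_⟩
    have := Finset.single_le_sum (f := fun j => ∑ i, α j i) (fun _ _ => Nat.zero_le _)
      (Finset.mem_univ j)
    omega
  constructor
  · intro z hz
    rw [mem_ball_zero_iff] at hz ⊢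
    rcases bounds hε h hD hz.le with h1 | rfl
    · have h2 : ‖mono ε c α z‖ ≤ ‖z‖ :=
        (pow_le_pow_iff_left₀ (norm_nonneg _) (norm_nonneg _) two_ne_zero).mp h1.1
      exact h2.trans_lt hz
    · rw [mono_zero h, norm_zero]; exact one_pos
  · intro K hK hKc
    obtain ⟨ρ, hρ0, hρ1, hρ⟩ : ∃ ρ : ℝ, 0 ≤ ρ ∧ ρ < 1 ∧ ∀ w ∈ K, ‖w‖ ≤ ρ := by
      rcases K.eq_empty_or_nonempty with rfl | hne
      · exact ⟨0, le_rfl, one_pos, by simp⟩
      · obtain ⟨w, hw, hmax⟩ := hKc.exists_isMaxOn hne continuous_norm.continuousOn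
        exact ⟨‖w‖, norm_nonneg _, by simpa using hK hw, fun v hv => hmax hv⟩
    -- radius
    obtain ⟨r, hr0, hr1, hr⟩ : ∃ r : ℝ, 0 ≤ r ∧ r < 1 ∧ ∀ z : E n, ‖z‖ < 1 → mono ε c α z ∈ K →
        ‖z‖ ≤ r := by
      refine ⟨ρ ^ ((1 : ℝ) / D), by positivity, ?_, ?_⟩
      · apply Real.rpow_lt_one hρ0 hρ1; positivity
      · intro z hz hzK
        rcases bounds hε h hD hz.le with h1 | rfl
        · have h2 : (‖z‖ ^ D) ^ 2 ≤ ρ ^ 2 := by
            calc (‖z‖ ^ D) ^ 2 = (‖z‖ ^ 2) ^ D := by rw [← pow_mul, ← pow_mul, mul_comm]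
              _ ≤ ‖mono ε c α z‖ ^ 2 := h1.2
              _ ≤ ρ ^ 2 := by
                have := hρ _ hzK
                gcongr
          have h3 : ‖z‖ ^ D ≤ ρ := (pow_le_pow_iff_left₀ (by positivity) hρ0 two_ne_zero).mp h2
          have h4 : ‖z‖ = (‖z‖ ^ D) ^ ((1 : ℝ) / D) := by
            rw [← Real.rpow_natCast, ← Real.rpow_mul (norm_nonneg _), mul_one_div_cancel
              (by positivity), Real.rpow_one]
          rw [h4]
          exact Real.rpow_le_rpow (by positivity) h3 (by positivity)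
        · rw [norm_zero]; positivity
    have heq : ball (0 : E n) 1 ∩ mono ε c α ⁻¹' K = closedBall 0 r ∩ mono ε c α ⁻¹' K := by
      ext z
      simp only [mem_inter_iff, mem_ball_zero_iff, mem_preimage, mem_closedBall_zero_iff]
      constructor
      · rintro ⟨h1, h2⟩; exact ⟨hr z h1 h2, h2⟩
      · rintro ⟨h1, h2⟩; exact ⟨h1.trans_lt hr1, h2⟩
    rw [heq]
    exact (isCompact_closedBall _ _).inter_right (hKc.isClosed.preimage (continuous_mono ε c α))
  · intro j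
    refine ⟨pol ε c α j, 1, fun z _ => ⟨by simp [ev], ?_⟩⟩
    rw [ev_pol]
    simp [ev]

/-- homogeneous maps have vanishing lower derivatives at the origin -/
theorem homog {n N : ℕ} {h : E n → E N} (hs : ContDiff ℂ ⊤ h) {D : ℕ}
    (hh : ∀ z, h ((2 : ℂ) • z) = (2 : ℂ) ^ D • h z) {m : ℕ} (hm : m < D) :
    iteratedFDeriv ℂ m h 0 = 0 := by
  let L : E n →L[ℂ] E n := (2 : ℂ) • ContinuousLinearMap.id ℂ (E n)
  have hL : ∀ z, L z = (2 : ℂ) • z := fun z => by simp [L]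
  have h1 := L.iteratedFDeriv_comp_right hs 0 (i := m) (by exact_mod_cast le_top)
  have h2 : h ∘ L = (2 : ℂ) ^ D • h := by
    funext z
    simp only [Function.comp_apply, hL, Pi.smul_apply]
    exact hh z
  rw [h2, map_zero] at h1
  have h3 : iteratedFDeriv ℂ m ((2 : ℂ) ^ D • h) 0 = (2 : ℂ) ^ D • iteratedFDeriv ℂ m h 0 :=
    iteratedFDeriv_const_smul_apply ((hs.of_le (by exact_mod_cast le_top)).contDiffAt)
  rw [h3] at h1
  ext v
  have h4 := congrArg (fun φ => φ v) h1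
  simp only [smul_apply,
    ContinuousMultilinearMap.compContinuousLinearMap_apply, hL] at h4
  rw [ContinuousMultilinearMap.map_smul_univ] at h4
  simp only [Finset.prod_const, Finset.card_univ, Fintype.card_fin] at h4
  have h5 : ((2 : ℂ) ^ D - 2 ^ m) • iteratedFDeriv ℂ m h 0 v = 0 := by
    rw [sub_smul, h4, sub_self]
  rcases smul_eq_zero.mp h5 with h6 | h6
  · exfalso
    have h7 : (2 : ℂ) ^ D = 2 ^ m := sub_eq_zero.mp h6
    have h8 : (2 : ℕ) ^ D = 2 ^ m := by exact_mod_cast h7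
    have h9 := Nat.pow_right_injective le_rfl h8
    omega
  · simp [h6]

theorem contDiff_mono {n N : ℕ} (ε : Fin N → ℂ) (c : Fin N → ℝ) (α : Fin N → Fin n → ℕ) :
    ContDiff ℂ ⊤ (mono ε c α) := by
  rw [contDiff_piLp]
  intro j
  have : (fun z => mono ε c α z j) = fun z => ε j * (Real.sqrt (c j) : ℂ) * ∏ i, z i ^ α j i := rfl
  rw [this]
  apply ContDiff.mul contDiff_const
  apply contDiff_prod
  intro i _
  apply ContDiff.pow
  exact (EuclideanSpace.proj (𝕜 := ℂ) i : E n →L[ℂ] ℂ).contDiff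

/-- the degree of a monomial map -/
theorem degree_mono {n N : ℕ} (ε : Fin N → ℂ) (c : Fin N → ℝ) (α : Fin N → Fin n → ℕ) {D : ℕ}
    (hD : ∀ j, ∑ i, α j i ≤ D) : DegreeLE D (mono ε c α) := by
  refine ⟨pol ε c α, 1, fun j => ?_, by simp, fun z _ => ⟨by simp [ev], fun j => ?_⟩⟩
  · refine le_trans ?_ (hD j)
    unfold pol
    refine (MvPolynomial.totalDegree_mul _ _).trans ?_
    rw [MvPolynomial.totalDegree_C, zero_add]
    refine (MvPolynomial.totalDegree_finsetProd _ _).trans ?_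
    apply Finset.sum_le_sum
    intro i _
    rw [MvPolynomial.totalDegree_X_pow]
  · rw [ev_pol]
    simp [ev]

/-- two monomial maps with the same jets of low order -/
theorem pair {n N : ℕ} (hn : 1 ≤ n) {c : Fin N → ℝ} {α : Fin N → Fin n → ℕ}
    (h : Data n (Fin N) c α) {j₀ : Fin N} (hc : 0 < c j₀) {D : ℕ} (hD : ∀ j, ∑ i, α j i ≤ D) :
    ∃ f g : E n → E N, ProperRational n N f ∧ ProperRational n N g ∧ DegreeLE D f ∧ DegreeLE D g ∧
      (∀ k, k < ∑ i, α j₀ i → SameJet k f g) ∧ ∃ z ∈ ball (0 : E n) 1, f z ≠ g z := by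
  obtain ⟨d, hd⟩ : ∃ d, d = ∑ i, α j₀ i := ⟨_, rfl⟩
  rw [← hd]
  obtain ⟨ε, hε⟩ : ∃ ε : Fin N → ℂ, ε = fun j => if j = j₀ then -1 else 1 := ⟨_, rfl⟩
  have hε1 : ∀ j, ‖ε j‖ = 1 := by
    intro j
    rw [hε]
    by_cases hj : j = j₀ <;> simp [hj]
  have h1 := proper_mono (ε := fun _ => 1) (by simp) h
  have h2 := proper_mono hε1 h
  -- the difference
  obtain ⟨H, hH⟩ : ∃ H : E n → E N, H = mono (fun _ => 1) c α - mono ε c α := ⟨_, rfl⟩
  have hHs : ContDiff ℂ ⊤ H := by rw [hH]; exact (contDiff_mono _ _ _).sub (contDiff_mono _ _ _)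
  have hHj : ∀ z j, H z j = if j = j₀ then 2 * ((Real.sqrt (c j) : ℂ) * ∏ i, z i ^ α j i) else 0 := by
    intro z j
    rw [hH]
    show mono (fun _ => 1) c α z j - mono ε c α z j = _
    rw [mono_apply, mono_apply, hε]
    by_cases hj : j = j₀
    · simp only [hj, if_true]; ring
    · simp [hj]
  have hHh : ∀ z, H ((2 : ℂ) • z) = (2 : ℂ) ^ d • H z := by
    intro z
    ext j
    have : ((2 : ℂ) ^ d • H z) j = (2 : ℂ) ^ d * H z j := rfl
    rw [this, hHj, hHj]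
    by_cases hj : j = j₀
    · simp only [hj, if_true]
      have h3 : ∏ i, ((2 : ℂ) • z) i ^ α j₀ i = 2 ^ d * ∏ i, z i ^ α j₀ i := by
        have : ∀ i, ((2 : ℂ) • z) i = 2 * z i := fun i => rfl
        simp only [this, mul_pow, Finset.prod_mul_distrib, Finset.prod_pow_eq_pow_sum, ← hd]
      rw [h3]; ring
    · simp [hj]
  refine ⟨mono (fun _ => 1) c α, mono ε c α, h1, h2, degree_mono _ _ _ hD, degree_mono _ _ _ hD,
    ?_, ?_⟩
  · intro k hk m hm
    have h3 : mono (fun _ => 1) c α = mono ε c α + H := by rw [hH]; abel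
    have h4 : iteratedFDeriv ℂ m (mono ε c α + H) 0 =
        iteratedFDeriv ℂ m (mono ε c α) 0 + iteratedFDeriv ℂ m H 0 :=
      iteratedFDeriv_add_apply (((contDiff_mono ε c α).of_le (by exact_mod_cast le_top)).contDiffAt)
        ((hHs.of_le (by exact_mod_cast le_top)).contDiffAt)
    rw [h3, h4, homog hHs hHh (by omega), add_zero]
  -- a point where they differ
  obtain ⟨z, hz⟩ : ∃ z : E n, z = WithLp.toLp 2 fun _ => (1 / ((n : ℂ) + 1)) := ⟨_, rfl⟩
  have hzi : ∀ i, z i = 1 / ((n : ℂ) + 1) := fun i => by rw [hz]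
  have hn1 : ((n : ℂ) + 1) ≠ 0 := by exact_mod_cast Nat.succ_ne_zero n
  have hzb : z ∈ ball (0 : E n) 1 := by
    rw [mem_ball_zero_iff]
    have h3 : ‖z‖ ^ 2 < 1 := by
      rw [norm_sq_eq]
      have h4 : ∀ i, ‖z i‖ ^ 2 = 1 / ((n : ℝ) + 1) ^ 2 := by
        intro i
        rw [hzi, norm_div, norm_one]
        have : ‖(n : ℂ) + 1‖ = (n : ℝ) + 1 := by
          have h5 : ((n : ℂ) + 1) = (((n : ℝ) + 1 : ℝ) : ℂ) := by push_cast; rfl
          rw [h5, Complex.norm_real, Real.norm_eq_abs, abs_of_pos (by positivity)]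
        rw [this, div_pow, one_pow]
      simp only [h4, Finset.sum_const, Finset.card_univ, Fintype.card_fin, nsmul_eq_mul]
      rw [mul_one_div, div_lt_one (by positivity)]
      nlinarith [(Nat.cast_nonneg n : (0 : ℝ) ≤ n)]
    by_contra hcon2
    rw [not_lt] at hcon2
    nlinarith
  refine ⟨z, hzb, fun h3 => ?_⟩
  have h4 : H z j₀ = 0 := by
    rw [hH]
    show mono (fun _ => 1) c α z j₀ - mono ε c α z j₀ = 0
    rw [h3, sub_self]
  rw [hHj] at h4
  simp only [if_true] at h4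
  have h5 : (Real.sqrt (c j₀) : ℂ) ≠ 0 := by
    exact_mod_cast (Real.sqrt_pos.mpr hc).ne'
  have h6 : ∏ i, z i ^ α j₀ i ≠ 0 := by
    apply Finset.prod_ne_zero_iff.mpr
    intro i _
    rw [hzi]
    exact pow_ne_zero _ (one_div_ne_zero hn1)
  exact (mul_ne_zero two_ne_zero (mul_ne_zero h5 h6)) h4

/-- the lower bound from a monomial map -/
theorem lower {n N : ℕ} (hn : 1 ≤ n) {c : Fin N → ℝ} {α : Fin N → Fin n → ℕ}
    (h : Data n (Fin N) c α) {j₀ : Fin N} (hc : 0 < c j₀) {k : ℕ} (hk : Determined n N k) :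
    ∑ i, α j₀ i ≤ k := by
  by_contra hcon
  rw [not_le] at hcon
  obtain ⟨f, g, hf, hg, _, _, hj, z, hz, hne⟩ := pair hn h hc (D := ∑ j, ∑ i, α j i) fun j =>
    Finset.single_le_sum (f := fun j => ∑ i, α j i) (fun _ _ => Nat.zero_le _) (Finset.mem_univ j)
  exact hne (hk f g hf hg (hj k hcon) z hz)

/-- data on a type with at most `N` elements give data on `Fin N` -/
theorem pad {n N : ℕ} {ι : Type} [Fintype ι] {c : ι → ℝ} {α : ι → Fin n → ℕ}
    (h : Data n ι c α) (hN : Fintype.card ι ≤ N) (i₀ : ι) (hc : 0 < c i₀) :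
    ∃ (c' : Fin N → ℝ) (α' : Fin N → Fin n → ℕ) (j₀ : Fin N), Data n (Fin N) c' α' ∧
      0 < c' j₀ ∧ α' j₀ = α i₀ ∧ ∀ j, ∃ i, α' j = α i := by
  classical
  obtain ⟨e⟩ : Nonempty (ι ↪ Fin N) := Function.Embedding.nonempty_of_card_le (by simpa using hN)
  refine ⟨Function.extend e c 0, Function.extend e α (fun _ => α i₀), e i₀, ⟨?_, ?_, ?_⟩, ?_, ?_, ?_⟩
  · intro j
    by_cases hj : ∃ i, e i = j
    · obtain ⟨i, rfl⟩ := hj
      rw [e.injective.extend_apply]; exact h.nonneg i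
    · rw [Function.extend_apply' _ _ _ hj]; rfl
  · intro j
    by_cases hj : ∃ i, e i = j
    · obtain ⟨i, rfl⟩ := hj
      rw [e.injective.extend_apply]; exact h.pos i
    · rw [Function.extend_apply' _ _ _ hj]; exact h.pos i₀
  · intro x hx hx1
    rw [← h.sum x hx hx1]
    have h1 : ∑ j ∈ Finset.univ.map e, Function.extend e c 0 j *
        ∏ i, x i ^ Function.extend e α (fun _ => α i₀) j i = ∑ j, c j * ∏ i, x i ^ α j i := by
      rw [Finset.sum_map]
      apply Finset.sum_congr rfl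
      intro i _
      rw [e.injective.extend_apply, e.injective.extend_apply]
    rw [← h1]
    symm
    apply Finset.sum_subset (Finset.subset_univ _)
    intro j _ hj
    have hj' : ¬ ∃ i, e i = j := by
      rintro ⟨i, rfl⟩
      exact hj (Finset.mem_map_of_mem e (Finset.mem_univ i))
    rw [Function.extend_apply' _ _ _ hj']
    simp
  · rw [e.injective.extend_apply]; exact hc
  · rw [e.injective.extend_apply]
  · intro j
    by_cases hj : ∃ i, e i = j
    · obtain ⟨i, rfl⟩ := hj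
      exact ⟨i, e.injective.extend_apply _ _ _⟩
    · exact ⟨i₀, Function.extend_apply' _ _ _ hj⟩

end Pool.Agent.K6.H12.JET
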