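import Mathlib
import Pool.Agent.K6.H12.JET.Mono

set_option autoImplicit false

/-! # The two families of monomial maps -/

namespace Pool.Agent.K6.H12.JET

open Metric Set Filter Topology

/-- exponents of the maps `(z', z_n z', …, z_n^(m-1) z', z_n^m)` -/
def whA (m q : ℕ) : (Fin m × Fin q) ⊕ Unit → Fin (q + 1) → ℕ
  | Sum.inl (l, i) => fun t => (if t = i.castSucc then 1 else 0) + (if t = Fin.last q then (l : ℕ) else 0)
  | Sum.inr _ => fun t => if t = Fin.last q then m else 0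

theorem whitney {m q : ℕ} (hm : 1 ≤ m) : Data (q + 1) ((Fin m × Fin q) ⊕ Unit) (fun _ => 1) (whA m q) := by
  constructor
  · intro j; norm_num
  · rintro (⟨l, i⟩ | ⟨⟩)
    · simp only [whA, Finset.sum_add_distrib, Finset.sum_ite_eq', Finset.mem_univ, if_true]
      omega
    · simp only [whA, Finset.sum_ite_eq', Finset.mem_univ, if_true]
      exact hm
  · intro x hx hx1
    rw [Fintype.sum_sum_type, Fintype.sum_prod_type]
    simp only [whA, one_mul, Finset.univ_unique, Finset.sum_singleton, pow_add,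
      Finset.prod_mul_distrib]
    have h1 : ∀ i : Fin q, ∏ t : Fin (q + 1), x t ^ (if t = i.castSucc then 1 else 0) = x i.castSucc := by
      intro i
      rw [Finset.prod_eq_single i.castSucc]
      · simp
      · intro b _ hb; simp [hb]
      · intro h; exact absurd (Finset.mem_univ _) h
    have h2 : ∀ l : ℕ, ∏ t : Fin (q + 1), x t ^ (if t = Fin.last q then l else 0) =
        x (Fin.last q) ^ l := by
      intro l
      rw [Finset.prod_eq_single (Fin.last q)]
      · simp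
      · intro b _ hb; simp [hb]
      · intro h; exact absurd (Finset.mem_univ _) h
    simp only [h1, h2]
    have h3 : ∑ i : Fin q, x i.castSucc = 1 - x (Fin.last q) := by
      rw [Fin.sum_univ_castSucc] at hx1
      linarith
    have h4 : ∀ l : Fin m, ∑ i : Fin q, x i.castSucc * x (Fin.last q) ^ (l : ℕ) =
        (1 - x (Fin.last q)) * x (Fin.last q) ^ (l : ℕ) := by
      intro l
      rw [← Finset.sum_mul, h3]
    simp only [h4]
    rw [← Finset.mul_sum, Fin.sum_univ_eq_sum_range (fun l => x (Fin.last q) ^ l) m]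
    have h5 := mul_neg_geom_sum (x (Fin.last q)) m
    rw [h5]; ring

theorem lower_general {n N m : ℕ} (hn : 2 ≤ n) (hm : m * (n - 1) + 1 ≤ N) {k : ℕ}
    (hk : Determined n N k) : m ≤ k := by
  rcases Nat.eq_zero_or_pos m with rfl | hm1
  · exact Nat.zero_le _
  obtain ⟨q, rfl⟩ : ∃ q, n = q + 1 := ⟨n - 1, by omega⟩
  rw [Nat.add_sub_cancel] at hm
  obtain ⟨c', α', j₀, h1, h2, h3, _⟩ := pad (N := N) (whitney (q := q) hm1) (by simpa using hm)
    (Sum.inr ()) one_pos
  have h4 := lower (by omega) h1 h2 hk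
  rw [h3] at h4
  simpa [whA, Finset.sum_ite_eq'] using h4

/-- distinct maps of degree `d` with the same jet of order `d - 1` -/
theorem same_jet {n d : ℕ} (hn : 2 ≤ n) (hd : 1 ≤ d) :
    ∃ f g : E n → E (d * (n - 1) + 1), ProperRational n _ f ∧ ProperRational n _ g ∧
      DegreeLE d f ∧ DegreeLE d g ∧ SameJet (d - 1) f g ∧ ∃ z ∈ ball (0 : E n) 1, f z ≠ g z := by
  obtain ⟨q, rfl⟩ : ∃ q, n = q + 1 := ⟨n - 1, by omega⟩
  obtain ⟨c', α', j₀, h1, h2, h3, h4⟩ := pad (N := d * (q + 1 - 1) + 1) (whitney (q := q) hd)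
    (by simp) (Sum.inr ()) one_pos
  have hsum : ∑ i, whA d q (Sum.inr ()) i = d := by simp [whA, Finset.sum_ite_eq']
  obtain ⟨f, g, hf, hg, hdf, hdg, hj, hz⟩ := pair (by omega) h1 h2 (D := d) (by
    intro j
    obtain ⟨i, hi⟩ := h4 j
    rw [hi]
    rcases i with ⟨l, i⟩ | ⟨⟩
    · simp only [whA, Finset.sum_add_distrib, Finset.sum_ite_eq', Finset.mem_univ, if_true]
      have := l.2
      omega
    · exact hsum.le)
  refine ⟨f, g, hf, hg, hdf, hdg, hj _ ?_, hz⟩
  rw [h3, hsum]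
  omega

/-- the coefficients of the polynomials `L_m` with `L_m(x, y) = α^m + β^m` for `α + β = x`,
`α β = - y` -/
def lc : ℕ → ℕ → ℕ
  | 0, 0 => 2
  | 0, _ + 1 => 0
  | 1, 0 => 1
  | 1, _ + 1 => 0
  | m + 2, 0 => lc (m + 1) 0
  | m + 2, j + 1 => lc (m + 1) (j + 1) + lc m j

theorem lc_zero : ∀ m j : ℕ, m < 2 * j → lc m j = 0
  | 0, 0, h => by omega
  | 0, _ + 1, _ => by rw [lc]
  | 1, 0, h => by omega
  | 1, _ + 1, _ => by rw [lc]
  | m + 2, 0, h => by omega
  | m + 2, j + 1, h => by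
    rw [lc, lc_zero (m + 1) (j + 1) (by omega), lc_zero m j (by omega)]

/-- the polynomial `L_m` -/
def Lp (m : ℕ) (x y : ℝ) : ℝ := ∑ j ∈ Finset.range (m + 1), (lc m j : ℝ) * (x ^ (m - 2 * j) * y ^ j)

theorem Lp_ext (m M : ℕ) (h : m + 1 ≤ M) (x y : ℝ) :
    ∑ j ∈ Finset.range M, (lc m j : ℝ) * (x ^ (m - 2 * j) * y ^ j) = Lp m x y := by
  unfold Lp
  symm
  apply Finset.sum_subset (Finset.range_mono h)
  intro j _ hj
  rw [Finset.mem_range, not_lt] at hj
  rw [lc_zero m j (by omega)]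
  simp

theorem Lp_rec (m : ℕ) (x y : ℝ) : Lp (m + 2) x y = x * Lp (m + 1) x y + y * Lp m x y := by
  rw [← Lp_ext (m + 1) (m + 3) (by omega) x y]
  rw [← Lp_ext m (m + 2) (by omega) x y]
  unfold Lp
  have e1 := Finset.sum_range_succ' (fun j => (lc (m + 2) j : ℝ) *
    (x ^ (m + 2 - 2 * j) * y ^ j)) (m + 2)
  have e2 := Finset.sum_range_succ' (fun j => (lc (m + 1) j : ℝ) *
    (x ^ (m + 1 - 2 * j) * y ^ j)) (m + 2)
  rw [show m + 3 = (m + 2) + 1 from rfl, e1, e2, mul_add, Finset.mul_sum, Finset.mul_sum]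
  have h1 : ∀ j ∈ Finset.range (m + 2), (lc (m + 2) (j + 1) : ℝ) *
      (x ^ (m + 2 - 2 * (j + 1)) * y ^ (j + 1)) =
      x * ((lc (m + 1) (j + 1) : ℝ) * (x ^ (m + 1 - 2 * (j + 1)) * y ^ (j + 1))) +
      y * ((lc m j : ℝ) * (x ^ (m - 2 * j) * y ^ j)) := by
    intro j _
    rw [lc]
    push_cast
    rw [show m + 2 - 2 * (j + 1) = m - 2 * j by omega]
    by_cases h : m + 1 < 2 * (j + 1)
    · rw [lc_zero (m + 1) (j + 1) h]
      push_cast; ring
    · have h2 : m - 2 * j = (m + 1 - 2 * (j + 1)) + 1 := by omega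
      rw [h2, pow_succ]
      ring
  rw [Finset.sum_congr rfl h1, Finset.sum_add_distrib]
  have h2 : (lc (m + 2) 0 : ℝ) * (x ^ (m + 2 - 2 * 0) * y ^ 0) =
      x * ((lc (m + 1) 0 : ℝ) * (x ^ (m + 1 - 2 * 0) * y ^ 0)) := by
    rw [lc]
    simp only [mul_zero, Nat.sub_zero, pow_zero, mul_one]
    ring
  rw [h2]
  ring

theorem Lp_val (x y : ℝ) (h : x + y = 1) : ∀ m : ℕ, Lp m x y = 1 + (-y) ^ m ∧
    Lp (m + 1) x y = 1 + (-y) ^ (m + 1)
  | 0 => by
    constructor
    · simp [Lp, lc]; norm_num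
    · simp [Lp, lc, Finset.sum_range_succ]; linarith
  | m + 1 => by
    obtain ⟨h1, h2⟩ := Lp_val x y h m
    refine ⟨h2, ?_⟩
    rw [show m + 1 + 1 = m + 2 from rfl, Lp_rec, h1, h2]
    have hx : x = 1 - y := by linarith
    rw [hx]
    ring

/-- exponents of the sharp maps in dimension two -/
def shA (r : ℕ) : Fin (r + 1) ⊕ Unit → Fin 2 → ℕ
  | Sum.inl j => ![2 * r + 1 - 2 * j, j]
  | Sum.inr _ => ![0, 2 * r + 1]

/-- coefficients of the sharp maps in dimension two -/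
noncomputable def shC (r : ℕ) : Fin (r + 1) ⊕ Unit → ℝ
  | Sum.inl j => lc (2 * r + 1) j
  | Sum.inr _ => 1

theorem sharp (r : ℕ) : Data 2 (Fin (r + 1) ⊕ Unit) (shC r) (shA r) := by
  constructor
  · rintro (j | ⟨⟩)
    · simp [shC]
    · simp [shC]
  · rintro (j | ⟨⟩)
    · simp only [shA, Fin.sum_univ_two, Matrix.cons_val_zero, Matrix.cons_val_one]
      have := j.2
      omega
    · simp only [shA, Fin.sum_univ_two, Matrix.cons_val_zero, Matrix.cons_val_one]
      omega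
  · intro x hx hx1
    rw [Fin.sum_univ_two] at hx1
    rw [Fintype.sum_sum_type]
    simp only [shA, shC, Finset.univ_unique, Finset.sum_singleton, Fin.prod_univ_two,
      Matrix.cons_val_zero, Matrix.cons_val_one, pow_zero, one_mul]
    rw [Fin.sum_univ_eq_sum_range (fun j => (lc (2 * r + 1) j : ℝ) *
      (x 0 ^ (2 * r + 1 - 2 * j) * x 1 ^ j)) (r + 1)]
    have h1 : ∑ j ∈ Finset.range (r + 1), (lc (2 * r + 1) j : ℝ) *
        (x 0 ^ (2 * r + 1 - 2 * j) * x 1 ^ j) = Lp (2 * r + 1) (x 0) (x 1) := by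
      unfold Lp
      apply Finset.sum_subset (Finset.range_mono (by omega))
      intro j _ hj
      rw [Finset.mem_range, not_lt] at hj
      rw [lc_zero (2 * r + 1) j (by omega)]
      simp
    rw [h1, (Lp_val _ _ hx1 (2 * r + 1)).1, Odd.neg_pow ⟨r, rfl⟩]
    ring

theorem lower_two {N : ℕ} (hN : 2 ≤ N) {k : ℕ} (hk : Determined 2 N k) : 2 * N - 3 ≤ k := by
  obtain ⟨r, rfl⟩ : ∃ r, N = r + 2 := ⟨N - 2, by omega⟩
  obtain ⟨c', α', j₀, h1, h2, h3, _⟩ := pad (N := r + 2) (sharp r) (by simp) (Sum.inr ())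
    (by simp [shC])
  have h4 := lower (by omega) h1 h2 hk
  rw [h3] at h4
  simp only [shA, Fin.sum_univ_two, Matrix.cons_val_zero, Matrix.cons_val_one] at h4
  omega

end Pool.Agent.K6.H12.JET
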